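import Mathlib

/-!
# MP_d015f1_co, Q1: a Domino game on `ℤ` in which passing saves player B

We give a one-dimensional SFT with four letters and six forbidden words of length at most four,
such that player A wins the Domino game on `E = ℤ` if passing is not allowed, but player B wins it
if passing is allowed.
-/

namespace Pool.Agent.Results.MP_d015f1_co.PassingHelps

/-! ### Domino games -/

/-- A pattern: a finite support and its colours. -/
structure Pattern (G 𝒜 : Type) where
  /-- the support -/
  supp : Finset G
  /-- the colours (only the values on the support matter) -/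
  val : G → 𝒜

/-- The pattern `p` appears in the partial colouring `q`. -/
def Appears {G 𝒜 : Type} [Add G] (p : Pattern G 𝒜) (q : G → Option 𝒜) : Prop :=
  ∃ i, ∀ s ∈ p.supp, q (i + s) = some (p.val s)

/-- The two players. -/
inductive Player
  | A
  | B

/-- `WinsA F E pass t q`: the position `q` (a partial colouring) with the player `t` to move is
winning for `A` in the Domino game with forbidden patterns `F` on the set `E` of cells, where
passing is allowed if `pass` holds. -/
inductive WinsA {G 𝒜 : Type} [Add G] [DecidableEq G] (F : List (Pattern G 𝒜)) (E : Set G)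
    (pass : Prop) : Player → (G → Option 𝒜) → Prop
  | final {t : Player} {q : G → Option 𝒜} (h : ∃ p ∈ F, Appears p q) : WinsA F E pass t q
  | passA {q : G → Option 𝒜} (h : pass) (hw : WinsA F E pass Player.B q) :
      WinsA F E pass Player.A q
  | moveA {q : G → Option 𝒜} (i : G) (hi : i ∈ E) (hq : q i = none) (a : 𝒜)
      (hw : WinsA F E pass Player.B (Function.update q i (some a))) :
      WinsA F E pass Player.A q
  | moveB {q : G → Option 𝒜} (hE : ∃ i ∈ E, q i = none)
      (hpass : pass → WinsA F E pass Player.A q)
      (hmove : ∀ i ∈ E, q i = none → ∀ a : 𝒜,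
        WinsA F E pass Player.A (Function.update q i (some a))) :
      WinsA F E pass Player.B q

/-- The game `Γ` (passing allowed) is winning for `A`. -/
def GammaWinsA {G 𝒜 : Type} [Add G] [DecidableEq G] (F : List (Pattern G 𝒜)) (E : Set G) : Prop :=
  WinsA F E True Player.A (fun _ => none)

/-- The game `Γ*` (passing not allowed) is winning for `A`. -/
def GammaStarWinsA {G 𝒜 : Type} [Add G] [DecidableEq G] (F : List (Pattern G 𝒜)) (E : Set G) :
    Prop :=
  WinsA F E False Player.A (fun _ => none)

/-! ### The SFT -/

/-- The four letters.  `(false, c)` is called `R c` and `(true, c)` is called `L c`. -/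
abbrev Letter : Type := Bool × Bool

/-- The letters of the first kind. -/
abbrev R (c : Bool) : Letter := (false, c)

/-- The letters of the second kind. -/
abbrev L (c : Bool) : Letter := (true, c)

/-- The word `w`, as a pattern on the cells `0, ..., w.length - 1` of `ℤ`. -/
def ofWord (w : List Letter) : Pattern ℤ Letter where
  supp := (Finset.range w.length).map Nat.castEmbedding
  val s := w.getD s.toNat (R false)

/-- The six forbidden words. -/
def words : List (List Letter) :=
  [[R false, L false], [R true, L true],
    [R false, R false, R false, L true], [R false, R true, R false, L true],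
    [L true, L false, L false, L false], [L true, L false, L true, L false]]

/-- The forbidden patterns. -/
def forbidden : List (Pattern ℤ Letter) := words.map ofWord

/-- Some forbidden pattern appears. -/
def Final (q : ℤ → Option Letter) : Prop := ∃ p ∈ forbidden, Appears p q

theorem appears_ofWord {w : List Letter} {q : ℤ → Option Letter} :
    Appears (ofWord w) q ↔ ∃ i : ℤ, ∀ k < w.length, q (i + (k : ℤ)) = some (w.getD k (R false)) := by
  unfold Appears ofWord
  constructor
  · rintro ⟨i, h⟩
    refine ⟨i, fun k hk => ?_⟩
    have := h (k : ℤ) (by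
      rw [Finset.mem_map]
      exact ⟨k, Finset.mem_range.mpr hk, rfl⟩)
    simpa using this
  · rintro ⟨i, h⟩
    refine ⟨i, fun s hs => ?_⟩
    rw [Finset.mem_map] at hs
    obtain ⟨k, hk, rfl⟩ := hs
    have := h k (Finset.mem_range.mp hk)
    simpa using this

/-- A forbidden word starts at the first of four consecutive cells. -/
def fin4 : Option Letter → Option Letter → Option Letter → Option Letter → Bool
  | some (false, c), some (true, c'), _, _ => c == c'
  | some (false, false), some (false, _), some (false, false), some (true, true) => true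
  | some (true, true), some (true, false), some (true, _), some (true, false) => true
  | _, _, _, _ => false

theorem fin4_word : ∀ a b c d : Option Letter, fin4 a b c d = true →
    ∃ w ∈ words, w.length ≤ 4 ∧ ∀ k < w.length,
      [a, b, c, d].getD k none = some (w.getD k (R false)) := by
  decide +kernel

theorem word_fin4 : ∀ a b c d : Option Letter, ∀ w ∈ words,
    (∀ k < w.length, [a, b, c, d].getD k none = some (w.getD k (R false))) →
      fin4 a b c d = true := by
  decide +kernel

theorem length_words : ∀ w ∈ words, w.length ≤ 4 := by decide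

theorem getD_cells (q : ℤ → Option Letter) (i : ℤ) {k : ℕ} (hk : k < 4) :
    [q i, q (i + 1), q (i + 2), q (i + 3)].getD k none = q (i + (k : ℤ)) := by
  interval_cases k <;> simp

theorem final_iff {q : ℤ → Option Letter} :
    Final q ↔ ∃ i : ℤ, fin4 (q i) (q (i + 1)) (q (i + 2)) (q (i + 3)) = true := by
  unfold Final forbidden
  constructor
  · rintro ⟨p, hp, happ⟩
    rw [List.mem_map] at hp
    obtain ⟨w, hw, rfl⟩ := hp
    obtain ⟨i, h⟩ := appears_ofWord.mp happ
    refine ⟨i, word_fin4 _ _ _ _ w hw fun k hk => ?_⟩
    have := length_words w hw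
    rw [getD_cells q i (by omega)]
    exact h k hk
  · rintro ⟨i, h⟩
    obtain ⟨w, hw, hl, hk⟩ := fin4_word _ _ _ _ h
    refine ⟨ofWord w, List.mem_map_of_mem hw, appears_ofWord.mpr ⟨i, fun k hkl => ?_⟩⟩
    rw [← getD_cells q i (by omega)]
    exact hk k hkl

theorem final2 {q : ℤ → Option Letter} (i : ℤ) (c : Bool) (h0 : q i = some (R c))
    (h1 : q (i + 1) = some (L c)) : Final q := by
  rw [final_iff]
  refine ⟨i, ?_⟩
  rw [h0, h1]
  revert c
  cases q (i + 2) <;> cases q (i + 3) <;> simp [fin4]

theorem final4 {q : ℤ → Option Letter} (i : ℤ) {x y z w : Letter}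
    (hf : fin4 (some x) (some y) (some z) (some w) = true) (h0 : q i = some x)
    (h1 : q (i + 1) = some y) (h2 : q (i + 2) = some z) (h3 : q (i + 3) = some w) : Final q := by
  rw [final_iff]
  exact ⟨i, by rw [h0, h1, h2, h3]; exact hf⟩

/-! ### Player A wins if passing is not allowed -/

section Star

/-- A wins at once if he can complete a forbidden pattern. -/
theorem win_of_completion {q : ℤ → Option Letter} (i : ℤ) (a : Letter) (hi : q i = none)
    (hf : Final (Function.update q i (some a))) :
    WinsA forbidden Set.univ False Player.A q :=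
  WinsA.moveA i (Set.mem_univ i) hi a (WinsA.final hf)

theorem exists_none {q : ℤ → Option Letter} (i : ℤ) (h : q i = none) :
    ∃ i ∈ (Set.univ : Set ℤ), q i = none := ⟨i, Set.mem_univ i, h⟩

/-- The position after A's first move. -/
def P1 : ℤ → Option Letter := Function.update (fun _ => none) 0 (some (R false))

/-- The position after B's only sensible reply. -/
def P2 : ℤ → Option Letter := Function.update P1 1 (some (L true))

/-- The position after A's second move: B is in zugzwang. -/
def P3 : ℤ → Option Letter := Function.update P2 2 (some (L false))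

theorem P1_apply (j : ℤ) : P1 j = if j = 0 then some (R false) else none := by
  unfold P1
  by_cases h : j = 0 <;> simp [h]

theorem P3_apply (j : ℤ) : P3 j = if j = 2 then some (L false) else if j = 1 then some (L true)
    else if j = 0 then some (R false) else none := by
  unfold P3 P2
  by_cases h2 : j = 2
  · simp [h2]
  · by_cases h1 : j = 1
    · simp [h1]
    · rw [Function.update_of_ne h2, Function.update_of_ne h1, P1_apply, if_neg h2, if_neg h1]

theorem zugzwang : WinsA forbidden Set.univ False Player.B P3 := by
  refine WinsA.moveB (exists_none 5 (by rw [P3_apply]; norm_num)) (fun h => h.elim) ?_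
  rintro j - hj ⟨t, c⟩
  rw [P3_apply] at hj
  have hj2 : j ≠ 2 := by rintro rfl; simp at hj
  have hj1 : j ≠ 1 := by rintro rfl; simp at hj
  have hj0 : j ≠ 0 := by rintro rfl; simp at hj
  have hP : ∀ k, Function.update P3 j (some (t, c)) k = if k = j then some (t, c) else
      if k = 2 then some (L false) else if k = 1 then some (L true)
      else if k = 0 then some (R false) else none := by
    intro k
    by_cases hk : k = j
    · subst hk; simp
    · rw [Function.update_of_ne hk, if_neg hk, P3_apply]
  cases t with
  | false =>
    by_cases hm : j = -1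
    · subst hm
      apply win_of_completion (-2) (R false)
      · rw [hP]; norm_num
      · apply final4 (-2) (x := R false) (y := R c) (z := R false) (w := L true)
        · cases c <;> rfl
        · simp
        · rw [Function.update_of_ne (by norm_num), hP]; norm_num
        · rw [Function.update_of_ne (by norm_num), hP]; norm_num
        · rw [Function.update_of_ne (by norm_num), hP]; norm_num
    · apply win_of_completion (j + 1) (L c)
      · rw [hP, if_neg (by omega), if_neg (by omega), if_neg (by omega), if_neg (by omega)]
      · apply final2 j c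
        · rw [Function.update_of_ne (by omega), hP, if_pos rfl]
        · simp
  | true =>
    by_cases hm : j = 3
    · subst hm
      apply win_of_completion 4 (L false)
      · rw [hP]; norm_num
      · apply final4 1 (x := L true) (y := L false) (z := L c) (w := L false)
        · cases c <;> rfl
        · rw [Function.update_of_ne (by norm_num), hP]; norm_num
        · rw [Function.update_of_ne (by norm_num), hP]; norm_num
        · rw [Function.update_of_ne (by norm_num), hP]; norm_num
        · norm_num
    · apply win_of_completion (j - 1) (R c)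
      · rw [hP, if_neg (by omega), if_neg (by omega), if_neg (by omega), if_neg (by omega)]
      · apply final2 (j - 1) c
        · simp
        · rw [sub_add_cancel, Function.update_of_ne (by omega), hP, if_pos rfl]

theorem star_wins : GammaStarWinsA forbidden (Set.univ : Set ℤ) := by
  unfold GammaStarWinsA
  refine WinsA.moveA 0 (Set.mem_univ _) rfl (R false) ?_
  change WinsA forbidden Set.univ False Player.B P1
  refine WinsA.moveB (exists_none 5 (by rw [P1_apply]; norm_num)) (fun h => h.elim) ?_
  rintro i - hi ⟨t, c⟩
  rw [P1_apply] at hi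
  have hi0 : i ≠ 0 := by rintro rfl; simp at hi
  have hP : ∀ k, Function.update P1 i (some (t, c)) k = if k = i then some (t, c) else
      if k = 0 then some (R false) else none := by
    intro k
    by_cases hk : k = i
    · subst hk; simp
    · rw [Function.update_of_ne hk, if_neg hk, P1_apply]
  by_cases h1 : i = 1
  · subst h1
    cases t with
    | false =>
      apply win_of_completion 2 (L c)
      · rw [hP]; norm_num
      · apply final2 1 c
        · rw [Function.update_of_ne (by norm_num), hP, if_pos rfl]
        · norm_num
    | true =>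
      cases c with
      | false =>
        apply WinsA.final
        apply final2 0 false
        · rw [hP]; norm_num
        · rw [hP]; norm_num
      | true =>
        have : WinsA forbidden Set.univ False Player.A P2 := by
          refine WinsA.moveA 2 (Set.mem_univ _) ?_ (L false) zugzwang
          unfold P2
          rw [Function.update_of_ne (by norm_num), P1_apply]
          norm_num
        exact this
  · apply win_of_completion 1 (L false)
    · rw [hP, if_neg (by omega), if_neg (by omega)]
    · apply final2 0 false
      · rw [Function.update_of_ne (by norm_num), hP, if_neg (by omega), if_pos rfl]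
      · norm_num

end Star

/-! ### Player B wins if passing is allowed -/

/-- The local condition of B's invariant: no forbidden word, and A cannot complete one. -/
def ok4 (a b c d : Option Letter) : Bool :=
  !(fin4 a b c d) &&
  (match a, b with
    | some (false, _), none => false
    | none, some (true, _) => false
    | _, _ => true) &&
  (match a, b, c, d with
    | none, some (false, _), some (false, false), some (true, true) => false
    | some (true, true), some (true, false), some (true, _), none => false
    | _, _, _, _ => true)

/-- B's invariant. -/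
def Good (q : ℤ → Option Letter) : Prop :=
  ∀ i : ℤ, ok4 (q i) (q (i + 1)) (q (i + 2)) (q (i + 3)) = true

/-- The kinds of replies of B to A's move at the cell `i`. -/
inductive Reply
  | pass
  | left (b : Letter)
  | right (b : Letter)

/-- B's reply to A's move of the letter `a` at the cell `i`, depending on the cells `i - 2`,
`i - 1`, `i + 1`, `i + 2`. -/
def reply (xm2 xm1 x1 x2 : Option Letter) : Letter → Reply
  | (false, c) => match x1, x2, xm1 with
    | none, _, _ => Reply.right (true, !c)
    | some (false, false), some (true, true), none => Reply.left (false, true)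
    | _, _, _ => Reply.pass
  | (true, c) => match xm1, xm2, x1 with
    | none, _, _ => Reply.left (false, !c)
    | some (true, false), some (true, true), none => Reply.right (true, true)
    | _, _, _ => Reply.pass

/-- The cell `i - 1` after the reply. -/
def newL (xm1 : Option Letter) : Reply → Option Letter
  | Reply.left b => some b
  | _ => xm1

/-- The cell `i + 1` after the reply. -/
def newR (x1 : Option Letter) : Reply → Option Letter
  | Reply.right b => some b
  | _ => x1

theorem reply_legal : ∀ (xm2 xm1 x1 x2 : Option Letter) (a : Letter),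
    (∀ b, reply xm2 xm1 x1 x2 a = Reply.left b → xm1 = none) ∧
    (∀ b, reply xm2 xm1 x1 x2 a = Reply.right b → x1 = none) := by
  intro xm2 xm1 x1 x2 a
  obtain ⟨t, c⟩ := a
  constructor <;> intro b hb <;> unfold reply at hb <;> cases t <;> simp only at hb <;>
    split at hb <;> simp_all

theorem win_m4 : ∀ xm4 xm3 xm2 xm1 : Option Letter, ok4 xm4 xm3 xm2 xm1 = true →
    ok4 xm3 xm2 xm1 none = true → ∀ x1, ok4 xm2 xm1 none x1 = true → ∀ x2,
    ok4 xm1 none x1 x2 = true → ∀ a : Letter,
    ok4 xm4 xm3 xm2 (newL xm1 (reply xm2 xm1 x1 x2 a)) = true := by decide +kernel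

theorem win_m3 : ∀ xm3 xm2 xm1 : Option Letter,
    ok4 xm3 xm2 xm1 none = true → ∀ x1, ok4 xm2 xm1 none x1 = true → ∀ x2,
    ok4 xm1 none x1 x2 = true → ∀ a : Letter,
    ok4 xm3 xm2 (newL xm1 (reply xm2 xm1 x1 x2 a)) (some a) = true ∧
    fin4 xm3 xm2 xm1 (some a) = false := by decide +kernel

theorem win_m2 : ∀ xm2 xm1 x1 : Option Letter, ok4 xm2 xm1 none x1 = true → ∀ x2,
    ok4 xm1 none x1 x2 = true → (∀ x3, ok4 none x1 x2 x3 = true → ∀ a : Letter,
    ok4 xm2 (newL xm1 (reply xm2 xm1 x1 x2 a)) (some a)
      (newR x1 (reply xm2 xm1 x1 x2 a)) = true ∧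
    fin4 xm2 xm1 (some a) x1 = false) := by decide +kernel

theorem win_m1 : ∀ xm2 xm1 x1 : Option Letter, ok4 xm2 xm1 none x1 = true → ∀ x2,
    ok4 xm1 none x1 x2 = true → ∀ x3, ok4 none x1 x2 x3 = true → ∀ a : Letter,
    ok4 (newL xm1 (reply xm2 xm1 x1 x2 a)) (some a)
      (newR x1 (reply xm2 xm1 x1 x2 a)) x2 = true ∧
    fin4 xm1 (some a) x1 x2 = false := by decide +kernel

theorem win_0 : ∀ xm2 xm1 x1 : Option Letter, ok4 xm2 xm1 none x1 = true → ∀ x2,
    ok4 xm1 none x1 x2 = true → ∀ x3, ok4 none x1 x2 x3 = true → ∀ a : Letter,
    ok4 (some a) (newR x1 (reply xm2 xm1 x1 x2 a)) x2 x3 = true ∧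
    fin4 (some a) x1 x2 x3 = false := by decide +kernel

theorem win_1 : ∀ xm2 xm1 x1 : Option Letter, ok4 xm2 xm1 none x1 = true → ∀ x2,
    ok4 xm1 none x1 x2 = true → ∀ x3, ok4 none x1 x2 x3 = true → ∀ x4,
    ok4 x1 x2 x3 x4 = true → ∀ a : Letter,
    ok4 (newR x1 (reply xm2 xm1 x1 x2 a)) x2 x3 x4 = true := by decide +kernel

theorem not_fin_of_ok : ∀ a b c d : Option Letter, ok4 a b c d = true → fin4 a b c d = false := by
  decide +kernel

theorem Good.not_final {q : ℤ → Option Letter} (h : Good q) : ¬ Final q := by
  rw [final_iff]
  rintro ⟨i, hi⟩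
  rw [not_fin_of_ok _ _ _ _ (h i)] at hi
  exact absurd hi (by decide)

/-- The condition for positions with B to move: nothing is lost yet, and B can pass or move so as
to restore the invariant. -/
def GoodB (q : ℤ → Option Letter) : Prop :=
  ¬ Final q ∧ (Good q ∨ ∃ (i : ℤ) (b : Letter), q i = none ∧ Good (Function.update q i (some b)))

theorem goodB_of_move {q : ℤ → Option Letter} (hq : Good q) (i : ℤ) (hi : q i = none)
    (a : Letter) : GoodB (Function.update q i (some a)) := by
  -- the windows of `q` around the cell `i`
  have hm4 : ok4 (q (i - 4)) (q (i - 3)) (q (i - 2)) (q (i - 1)) = true := by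
    have := hq (i - 4)
    rwa [show i - 4 + 1 = i - 3 by ring, show i - 4 + 2 = i - 2 by ring,
      show i - 4 + 3 = i - 1 by ring] at this
  have hm3 : ok4 (q (i - 3)) (q (i - 2)) (q (i - 1)) none = true := by
    have := hq (i - 3)
    rwa [show i - 3 + 1 = i - 2 by ring, show i - 3 + 2 = i - 1 by ring,
      show i - 3 + 3 = i by ring, hi] at this
  have hm2 : ok4 (q (i - 2)) (q (i - 1)) none (q (i + 1)) = true := by
    have := hq (i - 2)
    rwa [show i - 2 + 1 = i - 1 by ring, show i - 2 + 2 = i by ring,
      show i - 2 + 3 = i + 1 by ring, hi] at this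
  have hm1 : ok4 (q (i - 1)) none (q (i + 1)) (q (i + 2)) = true := by
    have := hq (i - 1)
    rwa [show i - 1 + 1 = i by ring, show i - 1 + 2 = i + 1 by ring,
      show i - 1 + 3 = i + 2 by ring, hi] at this
  have h0 : ok4 none (q (i + 1)) (q (i + 2)) (q (i + 3)) = true := by
    have := hq i
    rwa [hi] at this
  have h1 : ok4 (q (i + 1)) (q (i + 2)) (q (i + 3)) (q (i + 4)) = true := by
    have := hq (i + 1)
    rwa [show i + 1 + 1 = i + 2 by ring, show i + 1 + 2 = i + 3 by ring,
      show i + 1 + 3 = i + 4 by ring] at this
  have W4 := win_m4 _ _ _ _ hm4 hm3 _ hm2 _ hm1 a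
  obtain ⟨W3, F3⟩ := win_m3 _ _ _ hm3 _ hm2 _ hm1 a
  obtain ⟨W2, F2⟩ := win_m2 _ _ _ hm2 _ hm1 _ h0 a
  obtain ⟨W1, F1⟩ := win_m1 _ _ _ hm2 _ hm1 _ h0 a
  obtain ⟨W0, F0⟩ := win_0 _ _ _ hm2 _ hm1 _ h0 a
  have V1 := win_1 _ _ _ hm2 _ hm1 _ h0 _ h1 a
  set q' := Function.update q i (some a) with hq'
  have hq'i : q' i = some a := by simp [hq']
  have hq'o : ∀ j, j ≠ i → q' j = q j := fun j hj => by rw [hq', Function.update_of_ne hj]
  constructor
  · rw [final_iff]
    rintro ⟨j, hj⟩
    have hcases : j = i - 3 ∨ j = i - 2 ∨ j = i - 1 ∨ j = i ∨ (j < i - 3 ∨ i < j) := by omega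
    rcases hcases with rfl | rfl | rfl | rfl | hfar
    · rw [hq'o _ (by omega), hq'o _ (by omega), hq'o _ (by omega),
        show i - 3 + 1 = i - 2 by ring, show i - 3 + 2 = i - 1 by ring,
        show i - 3 + 3 = i by ring, hq'i, F3] at hj
      exact absurd hj (by decide)
    · rw [hq'o _ (by omega), hq'o _ (by omega), hq'o (i - 2 + 3) (by omega),
        show i - 2 + 1 = i - 1 by ring, show i - 2 + 2 = i by ring,
        show i - 2 + 3 = i + 1 by ring, hq'i, F2] at hj
      exact absurd hj (by decide)
    · rw [hq'o _ (by omega), hq'o (i - 1 + 2) (by omega), hq'o (i - 1 + 3) (by omega),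
        show i - 1 + 1 = i by ring, show i - 1 + 2 = i + 1 by ring,
        show i - 1 + 3 = i + 2 by ring, hq'i, F1] at hj
      exact absurd hj (by decide)
    · rw [hq'o (j + 1) (by omega), hq'o (j + 2) (by omega), hq'o (j + 3) (by omega),
        hq'i, F0] at hj
      exact absurd hj (by decide)
    · rw [hq'o _ (by omega), hq'o _ (by omega), hq'o _ (by omega), hq'o _ (by omega),
        not_fin_of_ok _ _ _ _ (hq j)] at hj
      exact absurd hj (by decide)
  · -- the reply
    have hgood : ∀ q'' : ℤ → Option Letter,
        q'' (i - 1) = newL (q (i - 1)) (reply (q (i - 2)) (q (i - 1)) (q (i + 1)) (q (i + 2)) a) →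
        q'' i = some a →
        q'' (i + 1) = newR (q (i + 1)) (reply (q (i - 2)) (q (i - 1)) (q (i + 1)) (q (i + 2)) a) →
        (∀ j, j ≠ i - 1 → j ≠ i → j ≠ i + 1 → q'' j = q j) → Good q'' := by
      intro q'' eL e0 eR eo j
      have hcases : j = i - 4 ∨ j = i - 3 ∨ j = i - 2 ∨ j = i - 1 ∨ j = i ∨ j = i + 1 ∨
          (j < i - 4 ∨ i + 1 < j) := by omega
      rcases hcases with rfl | rfl | rfl | rfl | rfl | rfl | hfar
      · rw [show i - 4 + 1 = i - 3 by ring, show i - 4 + 2 = i - 2 by ring,
          show i - 4 + 3 = i - 1 by ring, eL, eo (i - 4) (by omega) (by omega) (by omega),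
          eo (i - 3) (by omega) (by omega) (by omega), eo (i - 2) (by omega) (by omega) (by omega)]
        exact W4
      · rw [show i - 3 + 1 = i - 2 by ring, show i - 3 + 2 = i - 1 by ring,
          show i - 3 + 3 = i by ring, eL, e0,
          eo (i - 3) (by omega) (by omega) (by omega), eo (i - 2) (by omega) (by omega) (by omega)]
        exact W3
      · rw [show i - 2 + 1 = i - 1 by ring, show i - 2 + 2 = i by ring,
          show i - 2 + 3 = i + 1 by ring, eL, e0, eR,
          eo (i - 2) (by omega) (by omega) (by omega)]
        exact W2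
      · rw [show i - 1 + 1 = i by ring, show i - 1 + 2 = i + 1 by ring,
          show i - 1 + 3 = i + 2 by ring, eL, e0, eR,
          eo (i + 2) (by omega) (by omega) (by omega)]
        exact W1
      · rw [e0, eR, eo (j + 2) (by omega) (by omega) (by omega),
          eo (j + 3) (by omega) (by omega) (by omega)]
        exact W0
      · rw [show i + 1 + 1 = i + 2 by ring, show i + 1 + 2 = i + 3 by ring,
          show i + 1 + 3 = i + 4 by ring, eR, eo (i + 2) (by omega) (by omega) (by omega),
          eo (i + 3) (by omega) (by omega) (by omega), eo (i + 4) (by omega) (by omega) (by omega)]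
        exact V1
      · rw [eo j (by omega) (by omega) (by omega), eo (j + 1) (by omega) (by omega) (by omega),
          eo (j + 2) (by omega) (by omega) (by omega), eo (j + 3) (by omega) (by omega) (by omega)]
        exact hq j
    obtain ⟨legL, legR⟩ := reply_legal (q (i - 2)) (q (i - 1)) (q (i + 1)) (q (i + 2)) a
    cases hrep : reply (q (i - 2)) (q (i - 1)) (q (i + 1)) (q (i + 2)) a with
    | pass =>
      left
      apply hgood
      · rw [hrep, hq'o _ (by omega)]; rfl
      · exact hq'i
      · rw [hrep, hq'o _ (by omega)]; rfl
      · exact fun j _ hj _ => hq'o j hj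
    | left b =>
      right
      refine ⟨i - 1, b, ?_, ?_⟩
      · rw [hq'o _ (by omega)]
        exact legL b hrep
      · apply hgood
        · rw [hrep, Function.update_self]; rfl
        · rw [Function.update_of_ne (by omega)]; exact hq'i
        · rw [hrep, Function.update_of_ne (by omega), hq'o _ (by omega)]; rfl
        · intro j h1 h2 _
          rw [Function.update_of_ne h1, hq'o j h2]
    | right b =>
      right
      refine ⟨i + 1, b, ?_, ?_⟩
      · rw [hq'o _ (by omega)]
        exact legR b hrep
      · apply hgood
        · rw [hrep, Function.update_of_ne (by omega), hq'o _ (by omega)]; rfl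
        · rw [Function.update_of_ne (by omega)]; exact hq'i
        · rw [hrep, Function.update_self]; rfl
        · intro j _ h2 h3
          rw [Function.update_of_ne h3, hq'o j h2]

theorem not_winsA {t : Player} {q : ℤ → Option Letter}
    (h : WinsA forbidden Set.univ True t q) :
    (t = Player.A → ¬ Good q) ∧ (t = Player.B → ¬ GoodB q) := by
  induction h with
  | final h =>
    exact ⟨fun _ hg => hg.not_final h, fun _ hg => hg.1 h⟩
  | passA _ hw ih =>
    exact ⟨fun _ hg => ih.2 rfl ⟨hg.not_final, Or.inl hg⟩, fun h => nomatch h⟩
  | moveA i hi hq a hw ih =>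
    exact ⟨fun _ hg => ih.2 rfl (goodB_of_move hg i hq a), fun h => nomatch h⟩
  | moveB hE hpass hmove ihpass ihmove =>
    refine ⟨fun h => (nomatch h), fun _ hg => ?_⟩
    rcases hg.2 with h | ⟨i, b, hi, h⟩
    · exact (ihpass trivial).1 rfl h
    · exact (ihmove i (Set.mem_univ i) hi b).1 rfl h

/-- **Q1 of MP_d015f1_co, answered affirmatively with `d = 1` and `E = ℤ`.**  For the alphabet of
four letters and the six forbidden words above, the Domino game on `E = ℤ` without passing is
winning for `A`, whereas the game with passing is not winning for `A` (so it is winning for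
`B`). -/
theorem result :
    (GammaStarWinsA forbidden (Set.univ : Set ℤ) ∧ ¬ GammaWinsA forbidden (Set.univ : Set ℤ)) ∧
    ∃ (𝒜 : Type) (_ : Fintype 𝒜) (F : List (Pattern ℤ 𝒜)),
      GammaStarWinsA F (Set.univ : Set ℤ) ∧ ¬ GammaWinsA F (Set.univ : Set ℤ) := by
  have h : GammaStarWinsA forbidden (Set.univ : Set ℤ) ∧
      ¬ GammaWinsA forbidden (Set.univ : Set ℤ) :=
    ⟨star_wins, fun hw => (not_winsA hw).1 rfl (fun _ => rfl)⟩
  exact ⟨h, Letter, inferInstance, forbidden, h⟩

end Pool.Agent.Results.MP_d015f1_co.PassingHelps
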